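import Pool.Agent.Work.MP_320b68_gt.CircMain

/-!
The round unit circle in eight-space: Vietoris-Rips shadows of arbitrarily close finite samples
fail to have its homotopy type, at every scale below one.
-/

namespace Pool.Agent.Results.MP_320b68_gt.SmoothCircle

open Pool.Agent.Work.MP_320b68_gt

universe u

theorem result (M : Set (EuclideanSpace ℝ (Fin 8)))
    (hM : M = {x | x 0 ^ 2 + x 1 ^ 2 = 1 ∧ ∀ j : Fin 8, 2 ≤ j → x j = 0}) :
    Admissible.{u} M ∧
      ∀ β : ℝ, 0 < β → β < 1 → ∀ η : ℝ, 0 < η →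
        ∃ S : Finset (EuclideanSpace ℝ (Fin 8)),
          Metric.hausdorffEDist (S : Set (EuclideanSpace ℝ (Fin 8))) M < ENNReal.ofReal η ∧
            IsEmpty (ContinuousMap.HomotopyEquiv (shadow β S) M) := by
  subst hM
  exact ⟨Circ.admissible_M, fun _ h0 h1 _ hη => Circ.main h0 h1 hη⟩

end Pool.Agent.Results.MP_320b68_gt.SmoothCircle
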